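import Pool.Agent.Helper83.CycSat.Core

set_option autoImplicit false

open Polynomial

namespace Pool.Agent.Helper83.CycSat

/-- The exponent `m`. -/
lemma exists_exponent (q n0 : ℕ) (hq : 2 ≤ q) (hn0 : 0 < n0) (hcop : n0.Coprime q) :
    ∃ m : ℕ, 0 < m ∧ (∀ r, r.Prime → r ∣ n0 → r ∣ q ^ m - 1) ∧
      ∀ m', 0 < m' → (∀ r, r.Prime → r ∣ n0 → r ∣ q ^ m' - 1) → m ∣ m' := by
  classical
  let S : ℕ → Prop := fun m => 0 < m ∧ ∀ r, r.Prime → r ∣ n0 → r ∣ q ^ m - 1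
  have hex : ∃ m, S m := by
    refine ⟨Nat.totient n0, Nat.totient_pos.2 hn0, fun r _ hr => ?_⟩
    have h1 := Nat.ModEq.pow_totient hcop.symm
    have h2 : n0 ∣ q ^ Nat.totient n0 - 1 :=
      (Nat.modEq_iff_dvd' (Nat.one_le_pow _ _ (by omega))).1 h1.symm
    exact dvd_trans hr h2
  refine ⟨Nat.find hex, (Nat.find_spec hex).1, (Nat.find_spec hex).2, ?_⟩
  intro m' hm' hr'
  set m := Nat.find hex with hm
  have hgcd : S (Nat.gcd m m') := by
    refine ⟨Nat.gcd_pos_of_pos_right _ hm', fun r hr hrn => ?_⟩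
    have h1 := (Nat.find_spec hex).2 r hr hrn
    have h2 := hr' r hr hrn
    have h3 : Nat.gcd (q ^ m - 1) (q ^ m' - 1) = q ^ (Nat.gcd m m') - 1 :=
      Nat.pow_sub_one_gcd_pow_sub_one q m m'
    rw [← h3]
    exact Nat.dvd_gcd h1 h2
  have h1 : m ≤ Nat.gcd m m' := Nat.find_min' hex hgcd
  have h2 : Nat.gcd m m' ∣ m := Nat.gcd_dvd_left _ _
  have h3 : Nat.gcd m m' = m :=
    le_antisymm (Nat.le_of_dvd (Nat.find_spec hex).1 h2) h1
  rw [← h3]
  exact Nat.gcd_dvd_right _ _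

/-- Saturated lengths: `n` is prime to `q` and divides `q ^ (2 m) - 1` as soon as `q ^ m - 1` is
divisible by all primes dividing `n`. -/
def Sat (q n : ℕ) : Prop :=
  n.Coprime q ∧ ∀ m : ℕ, 0 < m → (∀ r : ℕ, r.Prime → r ∣ n → r ∣ q ^ m - 1) →
    n ∣ q ^ (2 * m) - 1

lemma pow_sub_dvd (q a b : ℕ) (h : a ∣ b) : q ^ a - 1 ∣ q ^ b - 1 := by
  obtain ⟨k, rfl⟩ := h
  have := Nat.sub_dvd_pow_sub_pow (q ^ a) 1 k
  rwa [one_pow, ← pow_mul] at this

lemma sat_gcd (q n0 m : ℕ) (hcop : n0.Coprime q)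
    (hm : ∀ r, r.Prime → r ∣ n0 → r ∣ q ^ m - 1)
    (hmin : ∀ m', 0 < m' → (∀ r, r.Prime → r ∣ n0 → r ∣ q ^ m' - 1) → m ∣ m') :
    Sat q (Nat.gcd n0 (q ^ (2 * m) - 1)) := by
  refine ⟨Nat.Coprime.coprime_dvd_left (Nat.gcd_dvd_left _ _) hcop, ?_⟩
  intro m' hm' hr
  have h1 : m ∣ m' := by
    apply hmin m' hm'
    intro r hrp hrn
    apply hr r hrp
    apply Nat.dvd_gcd hrn
    exact dvd_trans (hm r hrp hrn) (pow_sub_dvd q m (2 * m) (dvd_mul_left _ _))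
  exact dvd_trans (Nat.gcd_dvd_right _ _)
    (pow_sub_dvd q (2 * m) (2 * m') (Nat.mul_dvd_mul_left 2 h1))

lemma four_dvd (q n0 m : ℕ) (hcop : n0.Coprime q) (h2 : 2 ∣ n0) : 4 ∣ q ^ (2 * m) - 1 := by
  have hodd : q % 2 = 1 := by
    rcases Nat.mod_two_eq_zero_or_one q with h | h
    · exfalso
      have h3 : 2 ∣ q := Nat.dvd_of_mod_eq_zero h
      have h4 : 2 ∣ Nat.gcd n0 q := Nat.dvd_gcd h2 h3
      rw [hcop.gcd_eq_one] at h4
      omega
    · exact h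
  have h1 : q ^ 2 - 1 ∣ q ^ (2 * m) - 1 := pow_sub_dvd q 2 (2 * m) (dvd_mul_right _ _)
  refine dvd_trans ?_ h1
  obtain ⟨k, hk⟩ : ∃ k, q = 2 * k + 1 := ⟨q / 2, by omega⟩
  refine ⟨k ^ 2 + k, ?_⟩
  rw [hk]
  have : (2 * k + 1) ^ 2 = 4 * (k ^ 2 + k) + 1 := by ring
  rw [this, Nat.add_sub_cancel]

/-- The reduction for codes on `ZMod n`. -/
theorem reduce {F : Type} [Field F] [Finite F] (p : ℕ) [Fact p.Prime] [CharP F p] (n : ℕ)
    (hn : 0 < n) (D : Submodule F (ZMod n → F)) (hD : ∀ c ∈ D, (fun x => c (x + 1)) ∈ D)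
    (hne : D ≠ ⊥) (d : ℕ) (hd : 0 < d) (hmin : ∀ c ∈ D, c ≠ 0 → d ≤ Cyc.wt c) :
    ∃ n' : ℕ, 0 < n' ∧ n' ∣ n ∧ Sat (Nat.card F) n' ∧ ∃ D' : Submodule F (ZMod n' → F),
      (∀ c ∈ D', (fun x => c (x + 1)) ∈ D') ∧ D' ≠ ⊥ ∧
      Module.finrank F D * d ^ 2 ≤ p * n ^ 2 * Module.finrank F D' ∧
      ∀ c ∈ D', c ≠ 0 → d * n' ≤ n * Cyc.wt c := by
  have hp := (Fact.out : p.Prime)
  have hnz : NeZero n := ⟨hn.ne'⟩
  obtain ⟨s, n0, hpn0, hsn⟩ := Nat.exists_eq_pow_mul_and_not_dvd hn.ne' p hp.ne_one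
  have hn0 : 0 < n0 := by
    rcases Nat.eq_zero_or_pos n0 with h | h
    · rw [h] at hpn0
      exact absurd (dvd_zero p) hpn0
    · exact h
  set q := Nat.card F with hq
  have hq2 : 2 ≤ q := Finite.one_lt_card
  -- `q` is a power of `p`
  have hqp : ∃ k, q = p ^ k := by
    let _ : Algebra (ZMod p) F := ZMod.algebra F p
    exact ⟨_, (FiniteField.pow_finrank_eq_natCard p F).symm⟩
  have hcop : n0.Coprime q := by
    obtain ⟨k, hk⟩ := hqp
    rw [hk]
    exact Nat.Coprime.pow_right k ((Nat.Prime.coprime_iff_not_dvd hp).2 hpn0).symm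
  obtain ⟨m, hm, hm1, hm2⟩ := exists_exponent q n0 hq2 hn0 hcop
  have hL : 0 < 2 * m := by omega
  -- the periodic functions
  let E : Submodule F (ℤ → F) := D.map (per F n)
  have hE1 : E ≤ K (X ^ n - 1 : F[X]) := by
    rintro _ ⟨c, _, rfl⟩
    exact per_mem n c
  have hE2 : ∀ c ∈ E, T F c ∈ E := by
    rintro _ ⟨c, hc, rfl⟩
    refine ⟨fun x => c (x + 1), hD c hc, ?_⟩
    funext i
    rw [T_apply, per_apply, per_apply]
    push_cast
    rfl
  obtain ⟨h, hhm, hhdvd, hEK⟩ := exists_check hn E hE1 hE2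
  have hfinE : Module.finrank F D = h.natDegree := by
    rw [← finrank_K hn h hhm hhdvd, ← hEK]
    exact LinearEquiv.finrank_eq (Submodule.equivMapOfInjective _ (per_injective n hn) D)
  have hh1 : h ≠ 1 := by
    intro h1
    rw [h1, natDegree_one] at hfinE
    exact hne (Submodule.finrank_eq_zero.1 hfinE)
  have hEmin : ∀ c ∈ K h, c ≠ 0 → d ≤ W n c := by
    intro c hc hc0
    rw [← hEK] at hc
    obtain ⟨c', hc', rfl⟩ := hc
    rw [W_per n hn]
    apply hmin c' hc'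
    rintro rfl
    exact hc0 (map_zero _)
  obtain ⟨H, hHm, hHn, hH1, hHd, hHw⟩ := core p n s n0 (2 * m) hsn hpn0 hn0 hL
    (fun r hr hrn => dvd_trans (hm1 r hr hrn) (pow_sub_dvd q m (2 * m) (dvd_mul_left _ _)))
    (fun h2 => four_dvd q n0 m hcop h2) h hhm hhdvd hh1 d hd hEmin
  rw [← hq] at hHn hHw
  set n' := Nat.gcd n0 (q ^ (2 * m) - 1) with hn'
  have hn'pos : 0 < n' := Nat.gcd_pos_of_pos_left _ hn0
  have hn'n : n' ∣ n := by
    rw [hsn]
    exact Dvd.dvd.mul_left (Nat.gcd_dvd_left _ _) _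
  let D' : Submodule F (ZMod n' → F) := (K H).comap (per F n')
  have hmap : D'.map (per F n') = K H := by
    apply le_antisymm
    · rintro _ ⟨c, hc, rfl⟩
      exact hc
    · intro y hy
      obtain ⟨c, rfl⟩ := exists_per n' hn'pos y (K_mono hHn hy)
      exact ⟨c, hy, rfl⟩
  have hfinD' : Module.finrank F D' = H.natDegree := by
    rw [← finrank_K hn'pos H hHm hHn, ← hmap]
    exact LinearEquiv.finrank_eq (Submodule.equivMapOfInjective _ (per_injective n' hn'pos) D')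
  refine ⟨n', hn'pos, hn'n, sat_gcd q n0 m hcop hm1 hm2, D', ?_, ?_, ?_, ?_⟩
  · intro c hc
    show per F n' (fun x => c (x + 1)) ∈ K H
    have h1 : per F n' (fun x => c (x + 1)) = T F (per F n' c) := by
      funext i
      rw [T_apply, per_apply, per_apply]
      push_cast
      rfl
    rw [h1, mem_K]
    have h2 : (aeval (T F) H) (per F n' c) = 0 := hc
    have h3 : (aeval (T F) H) (T F (per F n' c)) = T F ((aeval (T F) H) (per F n' c)) := by
      have h4 : aeval (T F) H * T F = T F * aeval (T F) H := by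
        have h5 : aeval (T F) (H * X) = aeval (T F) (X * H) := by rw [mul_comm]
        rwa [map_mul, map_mul, aeval_X] at h5
      exact congrArg (fun A : (ℤ → F) →ₗ[F] (ℤ → F) => A (per F n' c)) h4
    rw [h3, h2, map_zero]
  · intro h1
    rw [h1, finrank_bot] at hfinD'
    exact hH1 (hHm.natDegree_eq_zero.1 hfinD'.symm)
  · rw [hfinE, hfinD']
    exact hHd
  · intro c hc hc0
    have h1 := hHw (per F n' c) hc (by
      intro h2
      exact hc0 (per_injective n' hn'pos (by rw [h2, map_zero])))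
    rwa [W_per n' hn'pos] at h1

end Pool.Agent.Helper83.CycSat
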