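import Pool.Agent.Helper83.CycSat.Number

set_option autoImplicit false

open Polynomial

namespace Pool.Agent.Helper83.CycSat

lemma order_iff {F E : Type} [Field F] [Finite F] [Field E] [Algebra F E] (x : E) (hx : x ≠ 0)
    (f : F[X]) (hf : Irreducible f) (hmin : ∀ g : F[X], aeval x g = 0 ↔ f ∣ g) (j : ℕ) :
    orderOf x ∣ (Nat.card F) ^ j - 1 ↔ f.natDegree ∣ j := by
  rw [Irreducible.natDegree_dvd_iff_dvd_X_pow_card_pow_sub_X hf, ← hmin, map_sub, map_pow, aeval_X,
    orderOf_dvd_iff_pow_eq_one, sub_eq_zero]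
  have hq : 1 ≤ (Nat.card F) ^ j := Nat.one_le_pow _ _ Nat.card_pos
  constructor
  · intro h
    have h1 : x ^ ((Nat.card F) ^ j) = x ^ ((Nat.card F) ^ j - 1) * x := by
      rw [← pow_succ]
      congr 1
      omega
    rw [h1, h, one_mul]
  · intro h
    have h1 : x ^ ((Nat.card F) ^ j) = x ^ ((Nat.card F) ^ j - 1) * x := by
      rw [← pow_succ]
      congr 1
      omega
    rw [h1] at h
    have h2 : x ^ ((Nat.card F) ^ j - 1) * x = 1 * x := by rw [h, one_mul]
    exact mul_right_cancel₀ hx h2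

/-- An irreducible factor of `X ^ n0 - 1` is a polynomial in `X ^ v`. -/
theorem irreducible_lift {F : Type} [Field F] [Finite F] (n0 L : ℕ) (hn0 : 0 < n0) (hL : 0 < L)
    (hpr : ∀ r, r.Prime → r ∣ n0 → r ∣ (Nat.card F) ^ L - 1)
    (h4 : 2 ∣ n0 → 4 ∣ (Nat.card F) ^ L - 1) (f : F[X]) (hfm : f.Monic) (hfi : Irreducible f)
    (hfn : f ∣ X ^ n0 - 1) :
    ∃ (v : ℕ) (f1 : F[X]), 0 < v ∧ f1.Monic ∧ Irreducible f1 ∧ f = expand F v f1 ∧
      f1 ∣ X ^ (Nat.gcd n0 ((Nat.card F) ^ L - 1)) - 1 ∧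
      v * Nat.gcd n0 ((Nat.card F) ^ L - 1) ∣ n0 := by
  set q := Nat.card F with hq
  set M := q ^ L - 1 with hM
  have hq2 : 2 ≤ q := Finite.one_lt_card
  have hfact : Fact (Irreducible f) := ⟨hfi⟩
  have hf0 : f ≠ 0 := hfi.ne_zero
  let β : AdjoinRoot f := AdjoinRoot.root f
  have hmin : ∀ g : F[X], aeval β g = 0 ↔ f ∣ g := by
    intro g
    rw [AdjoinRoot.aeval_eq, AdjoinRoot.mk_eq_zero]
  have hβn : β ^ n0 = 1 := by
    have := (hmin (X ^ n0 - 1)).2 hfn
    rw [map_sub, map_pow, aeval_X, map_one] at this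
    exact sub_eq_zero.1 this
  have hβ0 : β ≠ 0 := by
    intro h
    rw [h, zero_pow hn0.ne'] at hβn
    exact zero_ne_one hβn
  have hen0 : orderOf β ∣ n0 := orderOf_dvd_of_pow_eq_one hβn
  set e := orderOf β with he
  have hepos : 0 < e := Nat.pos_of_dvd_of_pos hen0 hn0
  set e0 := Nat.gcd e M with he0
  have he0e : e0 ∣ e := Nat.gcd_dvd_left _ _
  have he0pos : 0 < e0 := Nat.pos_of_dvd_of_pos he0e hepos
  set v := e / e0 with hv
  have hev : e = v * e0 := (Nat.div_mul_cancel he0e).symm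
  have hvpos : 0 < v := Nat.div_pos (Nat.le_of_dvd hepos he0e) he0pos
  have hve : v ∣ e := ⟨e0, hev⟩
  let γ : AdjoinRoot f := β ^ v
  have hγ0 : γ ≠ 0 := pow_ne_zero _ hβ0
  have hγord : orderOf γ = e0 := by
    show orderOf (β ^ v) = e0
    rw [orderOf_pow_of_dvd hvpos.ne' (by rw [← he]; exact hve), ← he]
    rw [hev, Nat.mul_div_cancel_left _ hvpos]
  have hfd : FiniteDimensional F (AdjoinRoot f) :=
    (AdjoinRoot.powerBasis hf0).finite
  have hγint : IsIntegral F γ := Algebra.IsIntegral.isIntegral γ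
  set f1 := minpoly F γ with hf1
  have hf1m : f1.Monic := minpoly.monic hγint
  have hf1i : Irreducible f1 := minpoly.irreducible hγint
  have hmin1 : ∀ g : F[X], aeval γ g = 0 ↔ f1 ∣ g := by
    intro g
    exact ⟨fun h => minpoly.dvd F γ h, fun ⟨u, hu⟩ => by
      rw [hu, map_mul, hf1, minpoly.aeval, zero_mul]⟩
  have hdvd : f ∣ expand F v f1 := by
    rw [← hmin, expand_aeval]
    exact minpoly.aeval F γ
  have hdeg : f.natDegree = v * f1.natDegree := by
    apply order_lift q L e e0 v f.natDegree f1.natDegree hq2 hL hepos hev he0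
    · intro r hr hre
      exact hpr r hr (dvd_trans hre hen0)
    · intro h2
      exact h4 (dvd_trans h2 hen0)
    · intro j
      exact order_iff β hβ0 f hfi hmin j
    · intro j
      rw [← hγord]
      exact order_iff γ hγ0 f1 hf1i hmin1 j
  refine ⟨v, f1, hvpos, hf1m, hf1i, ?_, ?_, ?_⟩
  · have h5 := eq_of_monic_of_dvd_of_natDegree_le hfm (hf1m.expand hvpos) hdvd
      (by rw [natDegree_expand, hdeg, mul_comm])
    exact h5.symm
  · rw [← hmin1, map_sub, map_pow, aeval_X, map_one, sub_eq_zero]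
    apply orderOf_dvd_iff_pow_eq_one.1
    rw [hγord]
    exact Nat.dvd_gcd (dvd_trans he0e hen0) (Nat.gcd_dvd_right _ _)
  · obtain ⟨k, hk⟩ := hen0
    have h1 : Nat.gcd n0 M ∣ k * e0 := by
      rw [he0, ← Nat.gcd_mul_left]
      apply Nat.dvd_gcd
      · rw [mul_comm k e, ← hk]
        exact Nat.gcd_dvd_left _ _
      · exact Dvd.dvd.mul_left (Nat.gcd_dvd_right _ _) k
    have h2 : n0 = v * (k * e0) := by
      rw [hk, hev]
      ring
    conv_rhs => rw [h2]
    exact Nat.mul_dvd_mul_left v h1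

end Pool.Agent.Helper83.CycSat
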