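import Pool.Agent.Helper83.CycSat.Lift
import Pool.Agent.Helper83.CycSat.Field

set_option autoImplicit false

open Polynomial UniqueFactorizationMonoid

namespace Pool.Agent.Helper83.CycSat

variable {F : Type} [Field F]

lemma coprime_of_ne (f g : F[X]) (hf : Irreducible f) (hg : Irreducible g) (hfm : f.Monic)
    (hgm : g.Monic) (hne : f ≠ g) : IsCoprime f g := by
  rcases hf.isCoprime_or_dvd g with h | h
  · exact h
  · exact absurd (eq_of_monic_of_associated hfm hgm (hf.associated_of_dvd hg h)) hne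

/-- The multiplicity of an irreducible polynomial in `X ^ (p ^ s * n0) - 1`. -/
lemma mult_le (p : ℕ) [Fact p.Prime] [CharP F p] (s n0 : ℕ) (hn0 : ¬ p ∣ n0) (f : F[X])
    (hf : Irreducible f) (m : ℕ) (h : f ^ m ∣ X ^ (p ^ s * n0) - 1) :
    m ≤ p ^ s ∧ (0 < m → f ∣ X ^ n0 - 1) := by
  have h1 : (X ^ (p ^ s * n0) - 1 : F[X]) = (X ^ n0 - 1) ^ (p ^ s) := by
    have hchar : CharP F[X] p := inferInstance
    rw [sub_pow_char_pow, one_pow, ← pow_mul, mul_comm n0]
  have h2 : Squarefree (X ^ n0 - 1 : F[X]) := by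
    have h3 := separable_X_pow_sub_C' p n0 (1 : F) hn0 one_ne_zero
    rw [map_one] at h3
    exact h3.squarefree
  have h4 : emultiplicity f (X ^ n0 - 1 : F[X]) ≤ 1 := by
    rcases (squarefree_iff_emultiplicity_le_one _).1 h2 f with h | h
    · exact h
    · exact absurd h hf.not_isUnit
  rw [h1] at h
  constructor
  · rw [pow_dvd_iff_le_emultiplicity, emultiplicity_pow hf.prime] at h
    have h5 : ((p ^ s : ℕ) : ℕ∞) * emultiplicity f (X ^ n0 - 1 : F[X]) ≤ ((p ^ s : ℕ) : ℕ∞) * 1 := by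
      gcongr
    rw [mul_one] at h5
    exact_mod_cast le_trans h h5
  · intro hm
    have h5 : f ∣ (X ^ n0 - 1 : F[X]) ^ (p ^ s) := dvd_trans (dvd_pow_self f hm.ne') h
    exact hf.prime.dvd_of_dvd_pow h5

/-- A word of small weight from a power of an irreducible factor. -/
lemma low_weight (p : ℕ) [Fact p.Prime] [CharP F p] (n n' i v : ℕ) (hn : 0 < n)
    (hn' : 0 < n') (hv : 0 < v) (f f1 : F[X]) (hf1m : f1.Monic)
    (hf1i : Irreducible f1) (hff : f = expand F v f1) (hf1n : f1 ∣ X ^ n' - 1)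
    (hdiv : p ^ i * v * n' ∣ n) :
    ∃ c ∈ K (f ^ (p ^ i)), c ≠ 0 ∧ W n c * (p ^ i * v) ≤ n := by
  have hpp : 0 < p ^ i := pow_pos (Fact.out : p.Prime).pos i
  set g := f1.map (iterateFrobenius F p i) with hg
  have hexp : f ^ (p ^ i) = expand F (p ^ i * v) g := by
    rw [← map_iterateFrobenius_expand p f i, hff, map_expand, map_expand, ← hg, ← expand_mul]
  have hgm : g.Monic := hf1m.map _
  have hgn : g ∣ X ^ n' - 1 := by
    have := Polynomial.map_dvd (iterateFrobenius F p i) hf1n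
    rwa [Polynomial.map_sub, Polynomial.map_pow, map_X, Polynomial.map_one] at this
  have hgd : 0 < g.natDegree := by
    rw [hg, natDegree_map]
    exact Irreducible.natDegree_pos hf1i
  have hfin := finrank_K hn' g hgm hgn
  have hfd := K_finite hn' g hgm hgn
  have hne : K g ≠ ⊥ := by
    intro h
    rw [h, finrank_bot] at hfin
    omega
  obtain ⟨y, hy, hy0⟩ := (Submodule.ne_bot_iff _).1 hne
  obtain ⟨k, hk⟩ := hdiv
  have hpv : 0 < p ^ i * v := Nat.mul_pos hpp hv
  refine ⟨lift F (p ^ i * v) y, ?_, ?_, ?_⟩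
  · rw [hexp]
    exact lift_mem _ hpv g y hy
  · intro h
    exact hy0 (lift_injective _ hpv (by rw [h, map_zero]))
  · have h1 : n = (p ^ i * v) * (n' * k) := by rw [hk]; ring
    rw [h1]
    calc W ((p ^ i * v) * (n' * k)) (lift F (p ^ i * v) y) * (p ^ i * v)
        ≤ (n' * k) * (p ^ i * v) :=
          Nat.mul_le_mul_right _ (le_trans (W_lift_le _ _ hpv y) (W_le _ y))
      _ = (p ^ i * v) * (n' * k) := by ring

/-- The core of the reduction. -/
theorem core [Finite F] (p : ℕ) [Fact p.Prime] [CharP F p] (n s n0 L : ℕ)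
    (hn : n = p ^ s * n0) (hp : ¬ p ∣ n0) (hn0 : 0 < n0) (hL : 0 < L)
    (hpr : ∀ r, r.Prime → r ∣ n0 → r ∣ (Nat.card F) ^ L - 1)
    (h4 : 2 ∣ n0 → 4 ∣ (Nat.card F) ^ L - 1) (h : F[X]) (hm : h.Monic)
    (hdvd : h ∣ X ^ n - 1) (hne : h ≠ 1) (d : ℕ) (hd : 0 < d)
    (hmin : ∀ c ∈ K h, c ≠ 0 → d ≤ W n c) :
    ∃ H : F[X], H.Monic ∧ H ∣ X ^ (Nat.gcd n0 ((Nat.card F) ^ L - 1)) - 1 ∧ H ≠ 1 ∧
      h.natDegree * d ^ 2 ≤ p * n ^ 2 * H.natDegree ∧
      ∀ y ∈ K H, y ≠ 0 → d * Nat.gcd n0 ((Nat.card F) ^ L - 1) ≤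
        n * W (Nat.gcd n0 ((Nat.card F) ^ L - 1)) y := by
  classical
  set n' := Nat.gcd n0 ((Nat.card F) ^ L - 1) with hn'def
  have hn'pos : 0 < n' := Nat.gcd_pos_of_pos_left _ hn0
  have hpp : 0 < p ^ s := pow_pos (Fact.out : p.Prime).pos s
  have hp2 : 2 ≤ p := (Fact.out : p.Prime).two_le
  have hnpos : 0 < n := by
    rw [hn]
    exact Nat.mul_pos hpp hn0
  have h0 : h ≠ 0 := hm.ne_zero
  set Φ : Finset F[X] := (normalizedFactors h).toFinset with hΦ
  have hmemΦ : ∀ f ∈ Φ, Irreducible f ∧ f.Monic ∧ f ∣ h := by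
    intro f hf
    rw [hΦ, Multiset.mem_toFinset, Polynomial.mem_normalizedFactors_iff h0] at hf
    exact hf
  let mu : F[X] → ℕ := fun f => (normalizedFactors h).count f
  have hmupos : ∀ f ∈ Φ, 0 < mu f := by
    intro f hf
    rw [hΦ, Multiset.mem_toFinset] at hf
    exact Multiset.count_pos.2 hf
  have hprod : (normalizedFactors h).prod = h := by
    have h1 := leadingCoeff_mul_prod_normalizedFactors h
    rw [hm.leadingCoeff, map_one, one_mul] at h1
    exact h1
  have hmudvd : ∀ f ∈ Φ, f ^ mu f ∣ h := by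
    intro f _
    have h1 : Multiset.replicate (mu f) f ≤ normalizedFactors h := Multiset.le_count_iff_replicate_le.1 le_rfl
    have h2 := Multiset.prod_dvd_prod_of_le h1
    rwa [Multiset.prod_replicate, hprod] at h2
  -- the structure of the factors
  have hstr : ∀ f ∈ Φ, ∃ (v : ℕ) (f1 : F[X]), 0 < v ∧ f1.Monic ∧ Irreducible f1 ∧
      f = expand F v f1 ∧ f1 ∣ X ^ n' - 1 ∧ v * n' ∣ n0 := by
    intro f hf
    obtain ⟨hfi, hfm, _⟩ := hmemΦ f hf
    have h1 : f ^ mu f ∣ X ^ (p ^ s * n0) - 1 := by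
      rw [← hn]
      exact dvd_trans (hmudvd f hf) hdvd
    have h2 := (mult_le p s n0 hp f hfi (mu f) h1).2 (hmupos f hf)
    exact irreducible_lift n0 L hn0 hL hpr h4 f hfm hfi h2
  choose! V G hV0 hGm hGi hfG hGn hVn using hstr
  -- the multiplicity bound
  have hbound : ∀ f ∈ Φ, mu f * V f * d ≤ p * n ∧ V f * d ≤ n := by
    intro f hf
    obtain ⟨hfi, hfm, _⟩ := hmemΦ f hf
    have h1 : f ^ mu f ∣ X ^ (p ^ s * n0) - 1 := by
      rw [← hn]
      exact dvd_trans (hmudvd f hf) hdvd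
    have hmle := (mult_le p s n0 hp f hfi (mu f) h1).1
    set i := Nat.log p (mu f) with hi
    have hi1 : p ^ i ≤ mu f := Nat.pow_log_le_self p (hmupos f hf).ne'
    have hi2 : mu f < p ^ (i + 1) := Nat.lt_pow_succ_log_self hp2 _
    have his : i ≤ s := by
      have h2 : p ^ i ≤ p ^ s := le_trans hi1 hmle
      exact (Nat.pow_le_pow_iff_right hp2).1 h2
    have hdiv : p ^ i * V f * n' ∣ n := by
      rw [hn, mul_assoc]
      exact Nat.mul_dvd_mul (pow_dvd_pow p his) (hVn f hf)
    obtain ⟨c, hc, hc0, hw⟩ := low_weight p n n' i (V f) hnpos hn'pos (hV0 f hf) f (G f)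
      (hGm f hf) (hGi f hf) (hfG f hf) (hGn f hf) hdiv
    have hcK : c ∈ K h := K_mono (dvd_trans (pow_dvd_pow f hi1) (hmudvd f hf)) hc
    have h3 : d ≤ W n c := hmin c hcK hc0
    have h5 : d * (p ^ i * V f) ≤ n := le_trans (Nat.mul_le_mul_right _ h3) hw
    constructor
    · calc mu f * V f * d ≤ p ^ (i + 1) * V f * d :=
            Nat.mul_le_mul_right _ (Nat.mul_le_mul_right _ hi2.le)
        _ = p * (d * (p ^ i * V f)) := by rw [pow_succ]; ring
        _ ≤ p * n := Nat.mul_le_mul_left _ h5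
    · have h6 : 1 ≤ p ^ i := Nat.one_le_pow _ _ (by omega)
      calc V f * d = d * (1 * V f) := by ring
        _ ≤ d * (p ^ i * V f) := Nat.mul_le_mul_left _ (Nat.mul_le_mul_right _ h6)
        _ ≤ n := h5
  -- degrees
  have hdeg : h.natDegree = ∑ f ∈ Φ, mu f * (V f * (G f).natDegree) := by
    have h1 : h.natDegree = ((normalizedFactors h).map natDegree).sum := by
      conv_lhs => rw [← hprod]
      apply natDegree_multiset_prod_of_monic
      intro f hf
      exact (hmemΦ f (by rw [hΦ, Multiset.mem_toFinset]; exact hf)).2.1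
    rw [h1, Finset.sum_multiset_map_count]
    refine Finset.sum_congr rfl fun f hf => ?_
    rw [smul_eq_mul]
    congr 1
    conv_lhs => rw [hfG f hf]
    rw [natDegree_expand, mul_comm]
  -- the classes
  let Hv : ℕ → F[X] := fun v => ∏ f ∈ Φ.filter (fun f => V f = v), G f
  have hHm : ∀ v, (Hv v).Monic := by
    intro v
    apply monic_prod_of_monic
    intro f hf
    exact hGm f (Finset.mem_filter.1 hf).1
  have hHexp : ∀ v, expand F v (Hv v) ∣ h := by
    intro v
    have h1 : expand F v (Hv v) = ∏ f ∈ Φ.filter (fun f => V f = v), f := by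
      show expand F v (∏ f ∈ Φ.filter (fun f => V f = v), G f) = _
      rw [map_prod]
      refine Finset.prod_congr rfl fun f hf => ?_
      rw [Finset.mem_filter] at hf
      conv_rhs => rw [hfG f hf.1, hf.2]
    rw [h1]
    apply Finset.prod_dvd_of_coprime
    · intro f hf g hg hfg
      have hf' := (Finset.mem_filter.1 hf).1
      have hg' := (Finset.mem_filter.1 hg).1
      exact coprime_of_ne f g (hmemΦ f hf').1 (hmemΦ g hg').1 (hmemΦ f hf').2.1
        (hmemΦ g hg').2.1 hfg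
    · intro f hf
      exact (hmemΦ f (Finset.mem_filter.1 hf).1).2.2
  have hHn : ∀ v, Hv v ∣ X ^ n' - 1 := by
    intro v
    apply Finset.prod_dvd_of_coprime
    · intro f hf g hg hfg
      have hf' := (Finset.mem_filter.1 hf)
      have hg' := (Finset.mem_filter.1 hg)
      refine coprime_of_ne (G f) (G g) (hGi f hf'.1) (hGi g hg'.1) (hGm f hf'.1) (hGm g hg'.1) ?_
      intro heq
      apply hfg
      rw [hfG f hf'.1, hfG g hg'.1, heq, hf'.2, hg'.2]
    · intro f hf
      exact hGn f (Finset.mem_filter.1 hf).1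
  have hHdeg : ∀ v, (Hv v).natDegree = ∑ f ∈ Φ.filter (fun f => V f = v), (G f).natDegree := by
    intro v
    apply natDegree_prod_of_monic
    intro f hf
    exact hGm f (Finset.mem_filter.1 hf).1
  -- `Φ` is nonempty
  have hhdeg : 0 < h.natDegree := by
    rcases Nat.eq_zero_or_pos h.natDegree with h1 | h1
    · exact absurd (hm.natDegree_eq_zero.1 h1) hne
    · exact h1
  have hΦne : Φ.Nonempty := by
    rw [Finset.nonempty_iff_ne_empty]
    intro h1
    rw [hdeg, h1, Finset.sum_empty] at hhdeg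
    exact lt_irrefl _ hhdeg
  obtain ⟨f0, hf0⟩ := hΦne
  set J := Finset.Icc 1 (n / d) with hJ
  have hVJ : ∀ f ∈ Φ, V f ∈ J := by
    intro f hf
    rw [hJ, Finset.mem_Icc]
    exact ⟨hV0 f hf, (Nat.le_div_iff_mul_le hd).2 (hbound f hf).2⟩
  obtain ⟨v, hvJ, hvmax⟩ := Finset.exists_max_image J (fun v => (Hv v).natDegree)
    ⟨V f0, hVJ f0 hf0⟩
  have hsumG : ∑ f ∈ Φ, (G f).natDegree = ∑ v ∈ J, (Hv v).natDegree := by
    rw [← Finset.sum_fiberwise_of_maps_to hVJ]
    refine Finset.sum_congr rfl fun v _ => ?_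
    rw [hHdeg]
  have hsumle : ∑ v ∈ J, (Hv v).natDegree ≤ (n / d) * (Hv v).natDegree := by
    have h1 := Finset.sum_le_card_nsmul J (fun v => (Hv v).natDegree) (Hv v).natDegree hvmax
    rw [hJ, Nat.card_Icc, Nat.add_sub_cancel, smul_eq_mul] at h1
    exact h1
  have hmain : h.natDegree * d ^ 2 ≤ p * n ^ 2 * (Hv v).natDegree := by
    have h1 : h.natDegree * d ≤ p * n * ∑ f ∈ Φ, (G f).natDegree := by
      rw [hdeg, Finset.sum_mul, Finset.mul_sum]
      refine Finset.sum_le_sum fun f hf => ?_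
      calc mu f * (V f * (G f).natDegree) * d = (mu f * V f * d) * (G f).natDegree := by ring
        _ ≤ (p * n) * (G f).natDegree := Nat.mul_le_mul_right _ (hbound f hf).1
    rw [hsumG] at h1
    calc h.natDegree * d ^ 2 = (h.natDegree * d) * d := by ring
      _ ≤ (p * n * ((n / d) * (Hv v).natDegree)) * d :=
          Nat.mul_le_mul_right _ (le_trans h1 (Nat.mul_le_mul_left _ hsumle))
      _ = p * n * (Hv v).natDegree * ((n / d) * d) := by ring
      _ ≤ p * n * (Hv v).natDegree * n := Nat.mul_le_mul_left _ (Nat.div_mul_le_self n d)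
      _ = p * n ^ 2 * (Hv v).natDegree := by ring
  have hHpos : 0 < (Hv v).natDegree := by
    by_contra h1
    have h2 : (Hv v).natDegree = 0 := by omega
    rw [h2, mul_zero] at hmain
    have h3 : 0 < h.natDegree * d ^ 2 := Nat.mul_pos hhdeg (pow_pos hd 2)
    omega
  refine ⟨Hv v, hHm v, hHn v, ?_, hmain, ?_⟩
  · intro h1
    rw [h1, natDegree_one] at hHpos
    exact lt_irrefl _ hHpos
  · intro y hy hy0
    have hclass : (Φ.filter (fun f => V f = v)).Nonempty := by
      rw [Finset.nonempty_iff_ne_empty]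
      intro h1
      rw [hHdeg, h1, Finset.sum_empty] at hHpos
      exact lt_irrefl _ hHpos
    obtain ⟨f, hf⟩ := hclass
    rw [Finset.mem_filter] at hf
    have hv0 : 0 < v := by rw [← hf.2]; exact hV0 f hf.1
    have hvn : v * n' ∣ n := by
      rw [hn, ← hf.2]
      exact Dvd.dvd.mul_left (hVn f hf.1) _
    obtain ⟨k, hk⟩ := hvn
    have hn2 : n = v * (n' * k) := by rw [hk]; ring
    have h1 : lift F v y ∈ K h := K_mono (hHexp v) (lift_mem v hv0 (Hv v) y hy)
    have h2 : lift F v y ≠ 0 := by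
      intro h3
      exact hy0 (lift_injective v hv0 (by rw [h3, map_zero]))
    have h3 := hmin _ h1 h2
    have hyper : ∀ i, y (i + n') = y i := (mem_K_periodic n' y).1 (K_mono (hHn v) hy)
    have h5 : W n (lift F v y) ≤ k * W n' y := by
      conv_lhs => rw [hn2]
      exact le_trans (W_lift_le v (n' * k) hv0 y) (W_periodic_le n' k hn'pos y hyper)
    have h6 : d ≤ k * W n' y := le_trans h3 h5
    calc d * n' ≤ (k * W n' y) * n' := Nat.mul_le_mul_right _ h6
      _ = (1 * (n' * k)) * W n' y := by ring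
      _ ≤ (v * (n' * k)) * W n' y :=
          Nat.mul_le_mul_right _ (Nat.mul_le_mul_right _ hv0)
      _ = n * W n' y := by rw [← hn2]

end Pool.Agent.Helper83.CycSat
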