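import Pool.Agent.Helper83.CycSat.Shift

set_option autoImplicit false

open Polynomial

namespace Pool.Agent.Helper83.CycSat

variable {F : Type} [Field F]

/-- The function supported on the multiples of `v` with values `y`. -/
def lift (F : Type) [Field F] (v : ℕ) : (ℤ → F) →ₗ[F] (ℤ → F) where
  toFun y i := if (v : ℤ) ∣ i then y (i / v) else 0
  map_add' a b := by
    funext i
    simp only [Pi.add_apply]
    split_ifs <;> simp
  map_smul' r a := by
    funext i
    simp only [Pi.smul_apply, RingHom.id_apply]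
    split_ifs <;> simp

lemma lift_apply (v : ℕ) (y : ℤ → F) (i : ℤ) :
    lift F v y i = if (v : ℤ) ∣ i then y (i / v) else 0 := rfl

lemma lift_mul (v : ℕ) (hv : 0 < v) (y : ℤ → F) (i : ℤ) : lift F v y (v * i) = y i := by
  rw [lift_apply, if_pos (dvd_mul_right _ _), Int.mul_ediv_cancel_left]
  exact_mod_cast hv.ne'

lemma lift_injective (v : ℕ) (hv : 0 < v) : Function.Injective (lift F v) := by
  intro a b hab
  funext i
  rw [← lift_mul v hv a i, ← lift_mul v hv b i, hab]

lemma lift_T (v : ℕ) (hv : 0 < v) (y : ℤ → F) : lift F v (T F y) = ((T F) ^ v) (lift F v y) := by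
  funext i
  rw [T_pow_apply, lift_apply, lift_apply]
  have h1 : (v : ℤ) ∣ i + v ↔ (v : ℤ) ∣ i := by
    rw [dvd_add_self_right]
  by_cases h : (v : ℤ) ∣ i
  · rw [if_pos h, if_pos (h1.2 h), T_apply]
    congr 1
    have hv' : (v : ℤ) ≠ 0 := by exact_mod_cast hv.ne'
    rw [Int.add_ediv_of_dvd_left h, Int.ediv_self hv']
  · rw [if_neg h, if_neg (fun h' => h (h1.1 h'))]

lemma lift_aeval (v : ℕ) (hv : 0 < v) (g : F[X]) (y : ℤ → F) :
    lift F v ((aeval (T F) g) y) = (aeval (T F) (expand F v g)) (lift F v y) := by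
  rw [expand_aeval]
  induction g using Polynomial.induction_on' with
  | add p q hp hq => rw [map_add, map_add, LinearMap.add_apply, LinearMap.add_apply, map_add, hp, hq]
  | monomial k a =>
    rw [aeval_monomial, aeval_monomial, Module.End.mul_apply, Module.End.mul_apply]
    have h1 : ∀ (k : ℕ) (y : ℤ → F), lift F v (((T F) ^ k) y) = (((T F) ^ v) ^ k) (lift F v y) := by
      intro k
      induction k with
      | zero => intro y; rfl
      | succ k ih =>
        intro y
        rw [pow_succ, Module.End.mul_apply, ih, pow_succ, Module.End.mul_apply, lift_T v hv]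
    show lift F v (a • ((T F) ^ k) y) = a • (((T F) ^ v) ^ k) (lift F v y)
    rw [map_smul, h1]

lemma lift_mem (v : ℕ) (hv : 0 < v) (g : F[X]) (y : ℤ → F) (hy : y ∈ K g) :
    lift F v y ∈ K (expand F v g) := by
  rw [mem_K, ← lift_aeval v hv, (mem_K g y).1 hy, map_zero]

/-- The number of nonzero values on an initial segment. -/
noncomputable def W (n : ℕ) (c : ℤ → F) : ℕ := {i : ℕ | i < n ∧ c (i : ℤ) ≠ 0}.ncard

lemma W_finite (n : ℕ) (c : ℤ → F) : {i : ℕ | i < n ∧ c (i : ℤ) ≠ 0}.Finite :=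
  (Set.finite_lt_nat n).subset fun _ hi => hi.1

lemma W_le (n : ℕ) (c : ℤ → F) : W n c ≤ n := by
  unfold W
  have h1 : {i : ℕ | i < n ∧ c (i : ℤ) ≠ 0} ⊆ Finset.range n := by
    intro i hi
    simpa using hi.1
  have h2 := Set.ncard_le_ncard h1 (Finset.finite_toSet _)
  rwa [Set.ncard_coe_finset, Finset.card_range] at h2

lemma W_lift_le (v m : ℕ) (hv : 0 < v) (y : ℤ → F) : W (v * m) (lift F v y) ≤ W m y := by
  unfold W
  have h1 : {i : ℕ | i < v * m ∧ lift F v y (i : ℤ) ≠ 0} ⊆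
      (fun j : ℕ => v * j) '' {i : ℕ | i < m ∧ y (i : ℤ) ≠ 0} := by
    rintro i ⟨hi, hi'⟩
    rw [lift_apply] at hi'
    by_cases h : (v : ℤ) ∣ (i : ℤ)
    · rw [if_pos h] at hi'
      obtain ⟨j, rfl⟩ := Int.natCast_dvd_natCast.1 h
      refine ⟨j, ⟨Nat.lt_of_mul_lt_mul_left hi, ?_⟩, rfl⟩
      have h2 : ((v * j : ℕ) : ℤ) / v = j := by
        push_cast
        rw [Int.mul_ediv_cancel_left]
        exact_mod_cast hv.ne'
      rwa [h2] at hi'
    · rw [if_neg h] at hi'
      exact absurd rfl hi'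
  refine le_trans (Set.ncard_le_ncard h1 ((W_finite m y).image _)) ?_
  exact Set.ncard_image_le (W_finite m y)

lemma W_periodic_le (n' k : ℕ) (hn' : 0 < n') (c : ℤ → F) (h : ∀ i, c (i + n') = c i) :
    W (n' * k) c ≤ k * W n' c := by
  unfold W
  have h1 : {i : ℕ | i < n' * k ∧ c (i : ℤ) ≠ 0} ⊆
      ⋃ t ∈ Finset.range k, (fun j : ℕ => j + n' * t) '' {i : ℕ | i < n' ∧ c (i : ℤ) ≠ 0} := by
    rintro i ⟨hi, hi'⟩
    simp only [Finset.mem_range, Set.mem_iUnion]
    refine ⟨i / n', Nat.div_lt_of_lt_mul hi, i % n', ⟨Nat.mod_lt _ hn', ?_⟩, ?_⟩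
    · have h2 := periodic_mul h (i / n') ((i % n' : ℕ) : ℤ)
      have h3 : ((i % n' : ℕ) : ℤ) + n' * ((i / n' : ℕ) : ℤ) = i := by
        have := Nat.mod_add_div i n'
        exact_mod_cast this
      rw [h3] at h2
      rw [← h2]
      exact hi'
    · exact Nat.mod_add_div i n'
  have hfin : (⋃ t ∈ Finset.range k, (fun j : ℕ => j + n' * t) ''
      {i : ℕ | i < n' ∧ c (i : ℤ) ≠ 0}).Finite :=
    Set.Finite.biUnion (Finset.finite_toSet _) fun t _ => (W_finite n' c).image _
  refine le_trans (Set.ncard_le_ncard h1 hfin) ?_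
  refine le_trans (Finset.set_ncard_biUnion_le _ _) ?_
  have : ∀ t ∈ Finset.range k, ((fun j : ℕ => j + n' * t) ''
      {i : ℕ | i < n' ∧ c (i : ℤ) ≠ 0}).ncard ≤ {i : ℕ | i < n' ∧ c (i : ℤ) ≠ 0}.ncard :=
    fun t _ => Set.ncard_image_le (W_finite n' c)
  refine le_trans (Finset.sum_le_sum this) ?_
  simp

/-- Periodic functions from functions on `ZMod n`. -/
def per (F : Type) [Field F] (n : ℕ) : (ZMod n → F) →ₗ[F] (ℤ → F) :=
  LinearMap.funLeft F F (fun i : ℤ => (i : ZMod n))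

lemma per_apply (n : ℕ) (c : ZMod n → F) (i : ℤ) : per F n c i = c (i : ZMod n) := rfl

lemma per_injective (n : ℕ) (hn : 0 < n) : Function.Injective (per F n) := by
  have hnz : NeZero n := ⟨hn.ne'⟩
  intro a b hab
  funext x
  have h1 := congrFun hab (x.val : ℤ)
  rw [per_apply, per_apply] at h1
  have h3 : (((x.val : ℤ)) : ZMod n) = x := by
    push_cast
    exact ZMod.natCast_zmod_val x
  rwa [h3] at h1

lemma per_mem (n : ℕ) (c : ZMod n → F) : per F n c ∈ K (X ^ n - 1 : F[X]) := by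
  rw [mem_K_periodic]
  intro i
  rw [per_apply, per_apply]
  congr 1
  push_cast
  simp

lemma W_per (n : ℕ) (hn : 0 < n) (c : ZMod n → F) : W n (per F n c) = Cyc.wt c := by
  have hnz : NeZero n := ⟨hn.ne'⟩
  unfold W Cyc.wt
  have h1 : (fun i : ℕ => (i : ZMod n)) '' {i : ℕ | i < n ∧ per F n c (i : ℤ) ≠ 0} =
      {x | c x ≠ 0} := by
    ext x
    constructor
    · rintro ⟨i, ⟨_, hi⟩, rfl⟩
      rw [per_apply] at hi
      simpa using hi
    · intro hx
      refine ⟨x.val, ⟨ZMod.val_lt x, ?_⟩, ZMod.natCast_zmod_val x⟩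
      rw [per_apply]
      push_cast
      rw [ZMod.natCast_zmod_val]
      exact hx
  rw [← h1, Set.ncard_image_of_injOn]
  rintro i ⟨hi, _⟩ j ⟨hj, _⟩ hij
  have hij' : (i : ZMod n) = (j : ZMod n) := hij
  rw [ZMod.natCast_eq_natCast_iff'] at hij'
  rwa [Nat.mod_eq_of_lt hi, Nat.mod_eq_of_lt hj] at hij'

/-- Every periodic function comes from a function on `ZMod n`. -/
lemma exists_per (n : ℕ) (hn : 0 < n) (y : ℤ → F) (hy : y ∈ K (X ^ n - 1 : F[X])) :
    ∃ c : ZMod n → F, per F n c = y := by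
  have hnz : NeZero n := ⟨hn.ne'⟩
  rw [mem_K_periodic] at hy
  refine ⟨fun x => y (x.val : ℤ), ?_⟩
  funext i
  rw [per_apply]
  have h1 : (((i : ZMod n).val : ℕ) : ℤ) = i % n := ZMod.val_intCast i
  show y (((i : ZMod n).val : ℕ) : ℤ) = y i
  rw [h1]
  have h2 : i % n = i - n * (i / n) := by
    rw [Int.emod_def]
  -- periodicity for integer multiples
  have h3 : ∀ (k : ℤ) (i : ℤ), y (i + n * k) = y i := by
    intro k i
    rcases Int.eq_nat_or_neg k with ⟨m, rfl | rfl⟩
    · exact periodic_mul hy m i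
    · have := periodic_mul hy m (i + n * -(m : ℤ))
      rw [← this]
      congr 1
      ring
  rw [h2, sub_eq_add_neg, ← mul_neg]
  exact h3 _ _

end Pool.Agent.Helper83.CycSat
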