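import Mathlib

set_option autoImplicit false

namespace Pool.Agent.Helper83.CycSat

lemma lte (r x τ : ℕ) (hr : r.Prime) (hx : 1 ≤ x) (hrx : r ∣ x - 1) (h2 : r = 2 → 4 ∣ x - 1) :
    emultiplicity r (x ^ τ - 1) = emultiplicity r (x - 1) + emultiplicity r τ := by
  have hrx' : ¬ r ∣ x := by
    intro h
    have h1 : r ∣ x - (x - 1) := Nat.dvd_sub h hrx
    have h2 : x - (x - 1) = 1 := by omega
    rw [h2] at h1
    exact hr.one_lt.ne' (Nat.dvd_one.1 h1)
  rcases hr.eq_two_or_odd' with rfl | hodd
  · have h4 := h2 rfl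
    have hxt : 1 ≤ x ^ τ := Nat.one_le_pow _ _ (by omega)
    have e1 : ((x ^ τ - 1 : ℕ) : ℤ) = (x : ℤ) ^ τ - 1 ^ τ := by
      rw [Nat.cast_sub hxt, one_pow]
      push_cast
      ring
    have e2 : ((x - 1 : ℕ) : ℤ) = (x : ℤ) - 1 := by
      rw [Nat.cast_sub hx]
      push_cast
      ring
    rw [← Int.natCast_emultiplicity 2 (x ^ τ - 1), ← Int.natCast_emultiplicity 2 (x - 1),
      ← Int.natCast_emultiplicity 2 τ, e1, e2]
    have h5 := Int.two_pow_sub_pow' (x := (x : ℤ)) (y := 1) τ (by
      rw [← e2]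
      exact_mod_cast h4) (by exact_mod_cast hrx')
    exact_mod_cast h5
  · have h5 := Nat.emultiplicity_pow_sub_pow hr hodd (x := x) (y := 1) hrx hrx' τ
    rwa [one_pow] at h5

lemma fact_lte (r x τ : ℕ) (hr : r.Prime) (hx : 2 ≤ x) (hτ : 0 < τ) (hrx : r ∣ x - 1)
    (h2 : r = 2 → 4 ∣ x - 1) :
    (x ^ τ - 1).factorization r = (x - 1).factorization r + τ.factorization r := by
  have hfact : Fact r.Prime := ⟨hr⟩
  have h := lte r x τ hr (by omega) hrx h2
  have hne1 : x ^ τ - 1 ≠ 0 := by
    have : 2 ≤ x ^ τ := le_trans hx (Nat.le_self_pow hτ.ne' x)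
    omega
  have hne2 : x - 1 ≠ 0 := by omega
  rw [← padicValNat_eq_emultiplicity hne1, ← padicValNat_eq_emultiplicity hne2,
    ← padicValNat_eq_emultiplicity hτ.ne'] at h
  rw [Nat.factorization_def _ hr, Nat.factorization_def _ hr, Nat.factorization_def _ hr]
  exact_mod_cast h

/-- The order of `q` modulo `e` in terms of the order modulo `gcd (e, q ^ L - 1)`. -/
theorem order_lift (q L e e0 v t t1 : ℕ) (hq : 2 ≤ q) (hL : 0 < L) (hepos : 0 < e)
    (he : e = v * e0) (hgcd : e0 = Nat.gcd e (q ^ L - 1))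
    (hpr : ∀ r, r.Prime → r ∣ e → r ∣ q ^ L - 1) (h4 : 2 ∣ e → 4 ∣ q ^ L - 1)
    (ht : ∀ j, e ∣ q ^ j - 1 ↔ t ∣ j) (ht1 : ∀ j, e0 ∣ q ^ j - 1 ↔ t1 ∣ j) : t = v * t1 := by
  set M := q ^ L - 1 with hM
  have hMpos : M ≠ 0 := by
    have : 2 ≤ q ^ L := le_trans hq (Nat.le_self_pow hL.ne' q)
    omega
  have hvpos : 0 < v := by
    rcases Nat.eq_zero_or_pos v with h | h
    · subst h
      rw [zero_mul] at he
      omega
    · exact h
  have he0pos : 0 < e0 := by
    rcases Nat.eq_zero_or_pos e0 with h | h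
    · rw [h, mul_zero] at he
      omega
    · exact h
  have ht1L : t1 ∣ L := by
    rw [← ht1, hgcd]
    exact Nat.gcd_dvd_right _ _
  have ht1pos : 0 < t1 := Nat.pos_of_dvd_of_pos ht1L hL
  set x := q ^ t1 with hx
  have hx2 : 2 ≤ x := le_trans hq (Nat.le_self_pow ht1pos.ne' q)
  have hxM : x - 1 ∣ M := by
    obtain ⟨k, hk⟩ := ht1L
    have := Nat.sub_dvd_pow_sub_pow x 1 k
    rw [one_pow, hx, ← pow_mul, ← hk] at this
    exact this
  have he0x : e0 ∣ x - 1 := (ht1 t1).2 dvd_rfl
  have hx1ne : x - 1 ≠ 0 := by omega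
  have hfe : ∀ r, e.factorization r = v.factorization r + e0.factorization r := by
    intro r
    rw [he, Nat.factorization_mul hvpos.ne' he0pos.ne']
    rfl
  have hfe0 : ∀ r, e0.factorization r = min (e.factorization r) (M.factorization r) := by
    intro r
    rw [hgcd, Nat.factorization_gcd hepos.ne' hMpos]
    rfl
  -- primes dividing `v`
  have hkey : ∀ r, r.Prime → 0 < v.factorization r → r ∣ x - 1 ∧ (r = 2 → 4 ∣ x - 1) ∧
      (x - 1).factorization r = e0.factorization r := by
    intro r hr hrv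
    have h1 := hfe r
    have h2 := hfe0 r
    have h3 : e0.factorization r = M.factorization r := by
      rcases min_cases (e.factorization r) (M.factorization r) with h | h
      · omega
      · omega
    have hre : r ∣ e := by
      apply Nat.dvd_of_factorization_pos
      omega
    have hrM : r ∣ M := hpr r hr hre
    have h5 : 0 < M.factorization r := hr.factorization_pos_of_dvd hMpos hrM
    have hre0 : r ∣ e0 := by
      apply Nat.dvd_of_factorization_pos
      omega
    have h6 : (x - 1).factorization r ≤ M.factorization r :=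
      (Nat.factorization_le_iff_dvd hx1ne hMpos).2 hxM r
    have h7 : e0.factorization r ≤ (x - 1).factorization r :=
      (Nat.factorization_le_iff_dvd he0pos.ne' hx1ne).2 he0x r
    refine ⟨dvd_trans hre0 he0x, ?_, by omega⟩
    intro hr2
    subst hr2
    have h8 : 4 ∣ M := h4 hre
    have h9 : 2 ≤ M.factorization 2 := by
      have : 2 ^ 2 ∣ M := by
        norm_num
        exact h8
      exact (Nat.prime_two.pow_dvd_iff_le_factorization hMpos).1 this
    have h10 : 2 ^ 2 ∣ e0 := by
      rw [Nat.prime_two.pow_dvd_iff_le_factorization he0pos.ne']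
      omega
    have h11 : 4 ∣ e0 := by
      norm_num at h10
      exact h10
    exact dvd_trans h11 he0x
  have claim : ∀ τ, 0 < τ → (e ∣ x ^ τ - 1 ↔ v ∣ τ) := by
    intro τ hτ
    have hxt : x ^ τ - 1 ≠ 0 := by
      have : 2 ≤ x ^ τ := le_trans hx2 (Nat.le_self_pow hτ.ne' x)
      omega
    constructor
    · intro h
      rw [← Nat.factorization_le_iff_dvd hepos.ne' hxt] at h
      rw [← Nat.factorization_le_iff_dvd hvpos.ne' hτ.ne']
      intro r
      by_cases hrv : 0 < v.factorization r
      · have hr : r.Prime := by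
          by_contra hr
          rw [Nat.factorization_eq_zero_of_not_prime _ hr] at hrv
          exact lt_irrefl _ hrv
        obtain ⟨k1, k2, k3⟩ := hkey r hr hrv
        have h1 := h r
        rw [fact_lte r x τ hr hx2 hτ k1 k2] at h1
        have h2 := hfe r
        omega
      · omega
    · intro h
      rw [← Nat.factorization_le_iff_dvd hvpos.ne' hτ.ne'] at h
      rw [← Nat.factorization_le_iff_dvd hepos.ne' hxt]
      intro r
      by_cases hrv : 0 < v.factorization r
      · have hr : r.Prime := by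
          by_contra hr
          rw [Nat.factorization_eq_zero_of_not_prime _ hr] at hrv
          exact lt_irrefl _ hrv
        obtain ⟨k1, k2, k3⟩ := hkey r hr hrv
        have h1 := h r
        rw [fact_lte r x τ hr hx2 hτ k1 k2]
        have h2 := hfe r
        omega
      · have h2 := hfe r
        have h7 : e0.factorization r ≤ (x - 1).factorization r :=
          (Nat.factorization_le_iff_dvd he0pos.ne' hx1ne).2 he0x r
        have h8 : x - 1 ∣ x ^ τ - 1 := by
          have := Nat.sub_dvd_pow_sub_pow x 1 τ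
          rwa [one_pow] at this
        have h9 : (x - 1).factorization r ≤ (x ^ τ - 1).factorization r :=
          (Nat.factorization_le_iff_dvd hx1ne hxt).2 h8 r
        omega
  have hev : e ∣ q ^ (t1 * v) - 1 := by
    rw [pow_mul]
    exact (claim v hvpos).2 dvd_rfl
  have htv : t ∣ t1 * v := (ht _).1 hev
  have htpos : 0 < t := Nat.pos_of_dvd_of_pos htv (Nat.mul_pos ht1pos hvpos)
  have het : e ∣ q ^ t - 1 := (ht t).2 dvd_rfl
  have ht1t : t1 ∣ t := (ht1 t).1 (dvd_trans (by rw [he]; exact dvd_mul_left _ _) het)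
  obtain ⟨τ, hτ⟩ := ht1t
  have hτpos : 0 < τ := by
    rcases Nat.eq_zero_or_pos τ with h | h
    · rw [h, mul_zero] at hτ
      omega
    · exact h
  have h1 : v ∣ τ := by
    rw [← claim τ hτpos, hx, ← pow_mul, ← hτ]
    exact het
  have h2 : τ ∣ v := by
    rw [hτ] at htv
    exact Nat.dvd_of_mul_dvd_mul_left ht1pos htv
  have h3 : τ = v := Nat.dvd_antisymm h2 h1
  rw [hτ, h3, mul_comm]

end Pool.Agent.Helper83.CycSat
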