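import Pool.Agent.Helper83.Cyc.Eigen

set_option autoImplicit false

open Polynomial

namespace Pool.Agent.Helper83.CycSat

variable {F : Type} [Field F]

/-- The shift on functions on the integers. -/
def T (F : Type) [Field F] : (ℤ → F) →ₗ[F] (ℤ → F) := LinearMap.funLeft F F (fun i => i + 1)

lemma T_apply (c : ℤ → F) (i : ℤ) : T F c i = c (i + 1) := rfl

lemma T_pow_apply (k : ℕ) (c : ℤ → F) (i : ℤ) : ((T F) ^ k) c i = c (i + k) := by
  induction k generalizing c i with
  | zero => simp
  | succ k ih =>
    rw [pow_succ, Module.End.mul_apply, ih, T_apply]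
    congr 1
    push_cast
    ring

lemma aeval_apply (g : F[X]) (c : ℤ → F) (i : ℤ) :
    (aeval (T F) g) c i = ∑ l ∈ Finset.range (g.natDegree + 1), g.coeff l * c (i + l) := by
  rw [aeval_eq_sum_range, LinearMap.sum_apply, Finset.sum_apply]
  refine Finset.sum_congr rfl fun l _ => ?_
  rw [LinearMap.smul_apply, Pi.smul_apply, T_pow_apply, smul_eq_mul]

/-- The solutions of the linear recurrence with polynomial `g`. -/
noncomputable def K (g : F[X]) : Submodule F (ℤ → F) := LinearMap.ker (aeval (T F) g)

lemma mem_K (g : F[X]) (c : ℤ → F) : c ∈ K g ↔ (aeval (T F) g) c = 0 := Iff.rfl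

lemma K_mono {g h : F[X]} (hgh : g ∣ h) : K g ≤ K h := by
  obtain ⟨u, rfl⟩ := hgh
  intro c hc
  rw [mem_K] at hc ⊢
  rw [mul_comm, map_mul, Module.End.mul_apply, hc, map_zero]

lemma mem_K_periodic (n : ℕ) (c : ℤ → F) : c ∈ K (X ^ n - 1 : F[X]) ↔ ∀ i, c (i + n) = c i := by
  rw [mem_K, map_sub, map_pow, aeval_X, map_one]
  constructor
  · intro h i
    have := congrFun h i
    rw [LinearMap.sub_apply, Pi.sub_apply, T_pow_apply] at this
    exact sub_eq_zero.1 this
  · intro h
    funext i
    rw [LinearMap.sub_apply, Pi.sub_apply, T_pow_apply]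
    exact sub_eq_zero.2 (h i)

lemma periodic_mul {n : ℕ} {c : ℤ → F} (h : ∀ i, c (i + n) = c i) (k : ℕ) (i : ℤ) :
    c (i + n * k) = c i := by
  induction k with
  | zero => simp
  | succ k ih =>
    rw [← ih, ← h (i + n * k)]
    congr 1
    push_cast
    ring

/-- A solution which vanishes on an initial segment is zero. -/
lemma eq_zero_of_initial {n : ℕ} (hn : 0 < n) (g : F[X]) (hg : g.Monic) (hgn : g ∣ X ^ n - 1)
    (c : ℤ → F) (hc : c ∈ K g) (h0 : ∀ j : ℕ, j < g.natDegree → c j = 0) : c = 0 := by
  have hper : ∀ i, c (i + n) = c i := (mem_K_periodic n c).1 (K_mono hgn hc)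
  have hpos : ∀ j : ℕ, c j = 0 := by
    intro j
    induction j using Nat.strong_induction_on with
    | _ j ih =>
      by_cases hj : j < g.natDegree
      · exact h0 j hj
      · have hj' : g.natDegree ≤ j := Nat.not_lt.1 hj
        have h1 := congrFun ((mem_K g c).1 hc) ((j : ℤ) - g.natDegree)
        rw [aeval_apply, Finset.sum_range_succ] at h1
        have h2 : ∑ l ∈ Finset.range g.natDegree, g.coeff l * c ((j : ℤ) - g.natDegree + l) = 0 := by
          refine Finset.sum_eq_zero fun l hl => ?_
          rw [Finset.mem_range] at hl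
          have h3 : ((j : ℤ) - g.natDegree + l) = ((j - g.natDegree + l : ℕ) : ℤ) := by
            push_cast [Nat.cast_sub hj']
            ring
          rw [h3, ih (j - g.natDegree + l) (by omega), mul_zero]
        rw [h2, zero_add] at h1
        have h4 : g.coeff g.natDegree = 1 := hg
        rw [h4, one_mul] at h1
        have h5 : ((j : ℤ) - g.natDegree + g.natDegree) = j := by ring
        rw [h5] at h1
        exact h1
  funext i
  have h1 : ∃ (k : ℕ) (j : ℕ), i + n * k = j := by
    refine ⟨i.natAbs, (i + n * i.natAbs).toNat, ?_⟩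
    have h2 : 0 ≤ i + n * i.natAbs := by
      have h3 : -(i.natAbs : ℤ) ≤ i := by omega
      have h4 : (i.natAbs : ℤ) ≤ n * i.natAbs := by
        have h5 : (1 : ℤ) ≤ n := by exact_mod_cast hn
        have h6 : (0 : ℤ) ≤ i.natAbs := by positivity
        nlinarith
      omega
    rw [Int.toNat_of_nonneg h2]
  obtain ⟨k, j, hkj⟩ := h1
  rw [← periodic_mul hper k i, hkj]
  exact hpos j

/-- The restriction to an initial segment. -/
def init (F : Type) [Field F] (d : ℕ) : (ℤ → F) →ₗ[F] (Fin d → F) :=
  LinearMap.funLeft F F (fun j : Fin d => ((j : ℕ) : ℤ))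

lemma init_injective {n : ℕ} (hn : 0 < n) (g : F[X]) (hg : g.Monic) (hgn : g ∣ X ^ n - 1) :
    Function.Injective ((init F g.natDegree).domRestrict (K g)) := by
  rw [← LinearMap.ker_eq_bot, LinearMap.ker_eq_bot']
  intro c hc
  apply Subtype.ext
  refine eq_zero_of_initial hn g hg hgn c c.2 fun j hj => ?_
  exact congrFun hc ⟨j, hj⟩

lemma K_finite {n : ℕ} (hn : 0 < n) (g : F[X]) (hg : g.Monic) (hgn : g ∣ X ^ n - 1) :
    FiniteDimensional F (K g) :=
  FiniteDimensional.of_injective _ (init_injective hn g hg hgn)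

lemma finrank_K_le {n : ℕ} (hn : 0 < n) (g : F[X]) (hg : g.Monic) (hgn : g ∣ X ^ n - 1) :
    Module.finrank F (K g) ≤ g.natDegree := by
  have := LinearMap.finrank_le_finrank_of_injective (init_injective hn g hg hgn)
  simpa using this

lemma monic_Xn (n : ℕ) (hn : 0 < n) : (X ^ n - 1 : F[X]).Monic := monic_X_pow_sub_C 1 hn.ne'

lemma natDegree_Xn (n : ℕ) : (X ^ n - 1 : F[X]).natDegree = n :=
  natDegree_X_pow_sub_C (n := n) (r := (1 : F))

/-- The periodic functions have dimension at least `n`. -/
lemma finrank_periodic {n : ℕ} (hn : 0 < n) : n ≤ Module.finrank F (K (X ^ n - 1 : F[X])) := by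
  have hfd := K_finite hn (X ^ n - 1 : F[X]) (monic_Xn n hn) dvd_rfl
  have hnz : NeZero n := ⟨hn.ne'⟩
  let f : (ZMod n → F) →ₗ[F] (ℤ → F) := LinearMap.funLeft F F (fun i : ℤ => (i : ZMod n))
  have hf : ∀ c, f c ∈ K (X ^ n - 1 : F[X]) := by
    intro c
    rw [mem_K_periodic]
    intro i
    show c ((i + n : ℤ) : ZMod n) = c (i : ZMod n)
    congr 1
    push_cast
    simp
  have hinj : Function.Injective (f.codRestrict _ hf) := by
    intro a b hab
    funext x
    have h1 := congrFun (congrArg Subtype.val hab) (x.val : ℤ)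
    have h2 : a (((x.val : ℤ)) : ZMod n) = b (((x.val : ℤ)) : ZMod n) := h1
    have h3 : (((x.val : ℤ)) : ZMod n) = x := by
      push_cast
      exact ZMod.natCast_zmod_val x
    rwa [h3] at h2
  have := LinearMap.finrank_le_finrank_of_injective hinj
  rw [Module.finrank_fintype_fun_eq_card, ZMod.card] at this
  exact this

lemma finrank_ker_comp_le' {V : Type} [AddCommGroup V] [Module F V] (A B : V →ₗ[F] V)
    [FiniteDimensional F (LinearMap.ker (A ∘ₗ B))] [FiniteDimensional F (LinearMap.ker A)]
    [FiniteDimensional F (LinearMap.ker B)] :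
    Module.finrank F (LinearMap.ker (A ∘ₗ B)) ≤
      Module.finrank F (LinearMap.ker A) + Module.finrank F (LinearMap.ker B) := by
  let W := LinearMap.ker (A ∘ₗ B)
  let f : W →ₗ[F] V := B.domRestrict W
  have h1 := LinearMap.finrank_range_add_finrank_ker f
  have h2 : Module.finrank F (LinearMap.range f) ≤ Module.finrank F (LinearMap.ker A) := by
    apply Submodule.finrank_mono
    rintro _ ⟨w, rfl⟩
    have := w.2
    rw [LinearMap.mem_ker] at this ⊢
    exact this
  have h3 : Module.finrank F (LinearMap.ker f) ≤ Module.finrank F (LinearMap.ker B) := by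
    have h4 : (LinearMap.ker f).map W.subtype ≤ LinearMap.ker B := by
      rintro _ ⟨w, hw, rfl⟩
      have h5 : f w = 0 := hw
      exact h5
    have h5 := Submodule.finrank_mono h4
    rwa [Submodule.finrank_map_subtype_eq] at h5
  show Module.finrank F W ≤ _
  omega

/-- The dimension of the solution space. -/
theorem finrank_K {n : ℕ} (hn : 0 < n) (g : F[X]) (hg : g.Monic) (hgn : g ∣ X ^ n - 1) :
    Module.finrank F (K g) = g.natDegree := by
  apply le_antisymm (finrank_K_le hn g hg hgn)
  obtain ⟨u, hu⟩ := hgn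
  have hum : u.Monic := hg.of_mul_monic_left (by rw [← hu]; exact monic_Xn n hn)
  have hun : u ∣ X ^ n - 1 := ⟨g, by rw [hu, mul_comm]⟩
  have h1 := K_finite hn g hg ⟨u, hu⟩
  have h2 := K_finite hn u hum hun
  have h3 := K_finite hn (X ^ n - 1 : F[X]) (monic_Xn n hn) dvd_rfl
  have h4 : K (X ^ n - 1 : F[X]) = LinearMap.ker ((aeval (T F) g) ∘ₗ (aeval (T F) u)) := by
    unfold K
    rw [hu, map_mul]
    rfl
  have i1 : FiniteDimensional F (LinearMap.ker ((aeval (T F) g) ∘ₗ (aeval (T F) u))) := by
    rw [← h4]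
    exact h3
  have i2 : FiniteDimensional F (LinearMap.ker (aeval (T F) g)) := h1
  have i3 : FiniteDimensional F (LinearMap.ker (aeval (T F) u)) := h2
  have h5 := finrank_ker_comp_le' (aeval (T F) g) (aeval (T F) u)
  rw [← h4] at h5
  have h6 := finrank_periodic (F := F) hn
  have h7 : Module.finrank F (K u) ≤ u.natDegree := finrank_K_le hn u hum hun
  have h8 : g.natDegree + u.natDegree = n := by
    rw [← hg.natDegree_mul hum, ← hu, natDegree_Xn]
  have h9 : Module.finrank F (LinearMap.ker (aeval (T F) g)) = Module.finrank F (K g) := rfl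
  have h10 : Module.finrank F (LinearMap.ker (aeval (T F) u)) = Module.finrank F (K u) := rfl
  omega

/-- Every shift invariant space of `n`-periodic functions is the solution space of a linear
recurrence. -/
theorem exists_check {n : ℕ} (hn : 0 < n) (C : Submodule F (ℤ → F))
    (hC : C ≤ K (X ^ n - 1 : F[X])) (hT : ∀ c ∈ C, T F c ∈ C) :
    ∃ h : F[X], h.Monic ∧ h ∣ X ^ n - 1 ∧ C = K h := by
  have hfd := K_finite hn (X ^ n - 1 : F[X]) (monic_Xn n hn) dvd_rfl
  have hfC : FiniteDimensional F C := Submodule.finiteDimensional_of_le hC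
  let T' : C →ₗ[F] C := (T F).restrict hT
  have hT' : ∀ (g : F[X]) (c : C), ((aeval T' g) c : ℤ → F) = (aeval (T F) g) c := by
    intro g
    induction g using Polynomial.induction_on' with
    | add p q hp hq =>
      intro c
      rw [map_add, map_add, LinearMap.add_apply, LinearMap.add_apply, Submodule.coe_add, hp, hq]
    | monomial k a =>
      intro c
      rw [aeval_monomial, aeval_monomial]
      rw [Module.End.mul_apply, Module.End.mul_apply]
      have h1 : ∀ (k : ℕ) (c : C), ((T' ^ k) c : ℤ → F) = ((T F) ^ k) c := by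
        intro k
        induction k with
        | zero => intro c; rfl
        | succ k ih =>
          intro c
          rw [pow_succ, pow_succ, Module.End.mul_apply, Module.End.mul_apply, ih]
          rfl
      show a • ((T' ^ k) c : ℤ → F) = a • ((T F) ^ k) c
      rw [h1]
  set h := minpoly F T' with hh
  have hint : IsIntegral F T' := Algebra.IsIntegral.isIntegral T'
  have hm : h.Monic := minpoly.monic hint
  have hdvd : h ∣ X ^ n - 1 := by
    apply minpoly.dvd
    apply LinearMap.ext
    intro c
    apply Subtype.ext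
    rw [hT']
    exact hC c.2
  refine ⟨h, hm, hdvd, ?_⟩
  have hle : C ≤ K h := by
    intro c hc
    rw [mem_K]
    have h1 := hT' h ⟨c, hc⟩
    have h2 : aeval T' h = 0 := minpoly.aeval F T'
    rw [h2] at h1
    exact h1.symm
  have hdeg : h.natDegree ≤ Module.finrank F C := by
    have h1 : h ∣ T'.charpoly := LinearMap.minpoly_dvd_charpoly T'
    have h2 := Polynomial.natDegree_le_of_dvd h1 (LinearMap.charpoly_monic T').ne_zero
    rwa [LinearMap.charpoly_natDegree] at h2
  have hfK := K_finite hn h hm hdvd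
  apply Submodule.eq_of_le_of_finrank_le hle
  rw [finrank_K hn h hm hdvd]
  exact hdeg

end Pool.Agent.Helper83.CycSat
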